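import Mathlib

open Finset Cardinal

namespace Pool.Agent.Results.MP_907903_al.PartitionLarge

universe u

/-- `A` is `κ`-large in the abelian group `G`: fewer than `κ` translates of `A` cover `G`. -/
def IsLarge {G : Type u} [AddCommGroup G] (κ : Cardinal.{u}) (A : Set G) : Prop :=
  ∃ F : Set G, #F < κ ∧ ∀ g : G, ∃ f ∈ F, ∃ a ∈ A, g = f + a

/-- the colour of an element with nonempty support: the `s`-th element of the support, where `s`
is the sum of the coordinates modulo the size of the support -/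
noncomputable def col {ι : Type u} (i₀ : ι) (p : ι →₀ ℤ) : ι :=
  if h : p.support.Nonempty then
    haveI : NeZero p.support.card := ⟨h.card_pos.ne'⟩
    (p.support.equivFin.symm (Fin.ofNat p.support.card
      ((∑ j ∈ p.support, p j) % (p.support.card : ℤ)).toNat) : ι)
  else i₀

lemma col_spec {ι : Type u} (i₀ : ι) (F : Finset ι) (i : ι) (hi : i ∈ F) :
    ∃ t : ℤ, ∀ p : ι →₀ ℤ, p.support = F → (∑ j ∈ F, p j) % (F.card : ℤ) = t % (F.card : ℤ) →
      col i₀ p = i := by
  have hpos : 0 < F.card := card_pos.mpr ⟨i, hi⟩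
  refine ⟨((F.equivFin ⟨i, hi⟩ : Fin F.card) : ℕ), ?_⟩
  rintro p rfl hp
  have hne : p.support.Nonempty := ⟨i, hi⟩
  unfold col
  rw [dif_pos hne]
  have h1 : (((p.support.equivFin ⟨i, hi⟩ : Fin p.support.card) : ℕ) : ℤ) % (p.support.card : ℤ) =
      ((p.support.equivFin ⟨i, hi⟩ : Fin p.support.card) : ℕ) := by
    apply Int.emod_eq_of_lt
    · positivity
    · exact_mod_cast (p.support.equivFin ⟨i, hi⟩).2
  rw [hp, h1, Int.toNat_natCast]
  have h2 : (haveI : NeZero p.support.card := ⟨hne.card_pos.ne'⟩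
      Fin.ofNat p.support.card ((p.support.equivFin ⟨i, hi⟩ : Fin p.support.card) : ℕ)) =
      p.support.equivFin ⟨i, hi⟩ := by
    apply Fin.ext
    simp [Fin.ofNat, Nat.mod_eq_of_lt]
  rw [h2, Equiv.symm_apply_apply]

/-- every line in direction `i` contains a point of colour `i` -/
lemma line {ι : Type u} (i₀ : ι) (i : ι) (y : ι →₀ ℤ) :
    ∃ n : ℤ, col i₀ (y + Finsupp.single i n) = i := by
  classical
  set x : ι →₀ ℤ := y.erase i with hx
  have hxi : x i = 0 := Finsupp.erase_same
  set F : Finset ι := insert i x.support with hF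
  have hiF : i ∈ F := mem_insert_self _ _
  have hpos : 0 < F.card := card_pos.mpr ⟨i, hiF⟩
  obtain ⟨t, ht⟩ := col_spec i₀ F i hiF
  set s : ℤ := ∑ j ∈ F, x j with hs
  -- choose a nonzero coordinate in the right class
  obtain ⟨n, hn0, hn⟩ : ∃ n : ℤ, n ≠ 0 ∧ (s + n) % (F.card : ℤ) = t % (F.card : ℤ) := by
    by_cases h : t - s = 0
    · refine ⟨F.card, by exact_mod_cast hpos.ne', ?_⟩
      rw [Int.add_emod_right]
      congr 1
      linarith
    · exact ⟨t - s, h, by congr 1; ring⟩
  refine ⟨n - y i, ?_⟩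
  have hp : y + Finsupp.single i (n - y i) = x + Finsupp.single i n := by
    ext j
    simp only [Finsupp.add_apply]
    by_cases hj : j = i
    · subst hj
      rw [hxi]
      simp
    · have h1 : x j = y j := by rw [hx, Finsupp.erase_ne hj]
      rw [Finsupp.single_eq_of_ne hj, Finsupp.single_eq_of_ne hj, h1]
  rw [hp]
  have hval : ∀ j, (x + Finsupp.single i n) j = x j + if j = i then n else 0 := by
    intro j
    rw [Finsupp.add_apply]
    by_cases hj : j = i
    · subst hj; simp
    · rw [Finsupp.single_eq_of_ne hj, if_neg hj]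
  apply ht
  · ext j
    rw [Finsupp.mem_support_iff, hval, hF, mem_insert, Finsupp.mem_support_iff]
    by_cases hj : j = i
    · subst hj
      rw [if_pos rfl, hxi]
      simpa using hn0
    · rw [if_neg hj, add_zero]
      simp [hj]
  · rw [← hn]
    congr 1
    simp_rw [hval]
    rw [Finset.sum_add_distrib, Finset.sum_ite_eq' F i, if_pos hiF]

/-- The free abelian group of rank `ℵ₂` can be partitioned into `ℵ₂` subsets, each of which is
`ℵ₁`-large. -/
theorem result (ι : Type u) (hι : #ι = ℵ_ 2) :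
    ∃ P : ι → Set (ι →₀ ℤ), (∀ i, (P i).Nonempty) ∧ (∀ i j, i ≠ j → Disjoint (P i) (P j)) ∧
      (⋃ i, P i) = Set.univ ∧ ∀ i, IsLarge (ℵ_ 1) (P i) := by
  classical
  have hne : Nonempty ι := by
    rw [← mk_ne_zero_iff, hι]
    exact (aleph_pos 2).ne'
  obtain ⟨i₀⟩ := hne
  refine ⟨fun i => {p | col i₀ p = i}, ?_, ?_, ?_, ?_⟩
  · intro i
    obtain ⟨n, hn⟩ := line i₀ i 0
    exact ⟨_, hn⟩
  · intro i j hij
    rw [Set.disjoint_left]
    intro p hp hp'
    exact hij (hp.symm.trans hp')
  · ext p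
    simp
  · intro i
    refine ⟨Set.range (fun n : ℤ => Finsupp.single i n), ?_, ?_⟩
    · have h1 : (Set.range (fun n : ℤ => Finsupp.single i n)).Countable := Set.countable_range _
      calc #(Set.range (fun n : ℤ => (Finsupp.single i n : ι →₀ ℤ))) ≤ ℵ₀ := h1.le_aleph0
        _ < ℵ_ 1 := aleph0_lt_aleph_one
    · intro g
      obtain ⟨n, hn⟩ := line i₀ i g
      refine ⟨Finsupp.single i (-n), ⟨-n, rfl⟩, _, hn, ?_⟩
      rw [Finsupp.single_neg]
      abel

end Pool.Agent.Results.MP_907903_al.PartitionLarge
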